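import Pool.Agent.Lib.MP_6bc78b_nt.GP.H43.Defs10t
import Pool.Agent.Lib.MP_6bc78b_nt.GP.H79.Kre
import Pool.Agent.Lib.MP_6bc78b_nt.GP.H35.Are7

/-! Project GP10 (MP_6bc78b_nt), module MAINT: the left line is large for most `t`. Assembly of
MAINT1 and MAINT2 (the Dirichlet polynomial may have length `T^(1/100)`). -/

set_option autoImplicit false

open Complex Filter Topology MeasureTheory ArithmeticFunction Set
open scoped ENNReal

namespace Pool.Agent.Lib.MP_6bc78b_nt.GP.H18T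

open Pool.Agent.Lib.MP_6bc78b_nt.MS Pool.Agent.Lib.MP_6bc78b_nt.MS.P1
open Pool.Agent.Lib.MP_6bc78b_nt.GP Pool.Agent.Lib.MP_6bc78b_nt.GP.G7
open Pool.Agent.Lib.MP_6bc78b_nt.GP.G10
open Pool.Agent.Lib.MP_6bc78b_nt.GP.H52

theorem wd_abs (lam H u : ℝ) : |wd lam H u| ≤ Real.exp (-(H ^ 2 * u ^ 2 / 2)) := by
  unfold wd
  rw [abs_mul, abs_pow, abs_of_pos (Real.exp_pos _)]
  have h : |Real.sinc (lam / 16 * u)| ≤ 1 :=
    abs_le.2 ⟨Real.neg_one_le_sinc _, Real.sinc_le_one _⟩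
  exact mul_le_of_le_one_left (Real.exp_pos _).le (pow_le_one₀ (abs_nonneg _) h)

theorem wd_zero (lam H : ℝ) : wd lam H 0 = 1 := by
  unfold wd
  simp

/-- The Gaussian against a power. -/
theorem wd_pow {lam H : ℝ} (hH : 0 < H) {n m : ℕ} (hn : 1 ≤ n) (hm : 1 ≤ m) :
    |wd lam H (Real.log ((n : ℝ) / m))| ≤ Real.exp (8 / H ^ 2) * ((m : ℝ) / n) ^ 4 := by
  have hn0 : (0 : ℝ) < n := by exact_mod_cast hn
  have hm0 : (0 : ℝ) < m := by exact_mod_cast hm
  refine (wd_abs _ _ _).trans ?_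
  have e1 : ((m : ℝ) / n) ^ 4 = Real.exp (-(4 * Real.log ((n : ℝ) / m))) := by
    have h1 : (m : ℝ) / n = Real.exp (-Real.log ((n : ℝ) / m)) := by
      rw [← Real.log_inv, inv_div, Real.exp_log (div_pos hm0 hn0)]
    rw [h1, ← Real.exp_nat_mul]
    congr 1
    push_cast
    ring
  rw [e1, ← Real.exp_add]
  apply Real.exp_le_exp.2
  set x := Real.log ((n : ℝ) / m)
  have h2 : 0 ≤ (H * x - 4 / H) ^ 2 := sq_nonneg _
  have h3 : (H * x - 4 / H) ^ 2 = H ^ 2 * x ^ 2 - 8 * x + 16 / H ^ 2 := by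
    field_simp
    ring
  rw [h3] at h2
  have h4 : 16 / H ^ 2 = 2 * (8 / H ^ 2) := by ring
  rw [h4] at h2
  linarith

/-- one term -/
noncomputable def tm (a : ℕ → ℝ) (lam H : ℝ) (β : ℕ → ℝ) (n m : ℕ) (t : ℝ) : ℂ :=
  ((a n * β m / Real.sqrt (n * m) * wd lam H (Real.log (n / m)) : ℝ) : ℂ) *
      Complex.exp (t * Real.log (n / m) * I)

theorem tm_norm (a : ℕ → ℝ) (lam H : ℝ) (β : ℕ → ℝ) (n m : ℕ) (t : ℝ) :
    ‖tm a lam H β n m t‖ = |a n * β m / Real.sqrt (n * m) * wd lam H (Real.log (n / m))| := by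
  unfold tm
  rw [norm_mul, Complex.norm_real, Real.norm_eq_abs]
  have h : (t : ℂ) * ((Real.log ((n : ℝ) / m) : ℝ) : ℂ) * I =
      ((t * Real.log ((n : ℝ) / m) : ℝ) : ℂ) * I := by
    push_cast
    ring
  rw [h, Complex.norm_exp_ofReal_mul_I, mul_one]

theorem log_le_self {n : ℕ} (hn : 1 ≤ n) : 1 + Real.log n ≤ n := by
  have h := Real.log_le_sub_one_of_pos (show (0 : ℝ) < n by exact_mod_cast hn)
  linarith

theorem tm_le {a : ℕ → ℝ} (ha : ∀ n : ℕ, |a n| ≤ 3 * (1 + Real.log n) ^ 2) {lam H : ℝ} (hH : 0 < H)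
    {β : ℕ → ℝ} (hβ : ∀ m, 0 ≤ β m) {n m : ℕ} (hn : 1 ≤ n) (hm : 1 ≤ m) (t : ℝ) :
    ‖tm a lam H β n m t‖ ≤ 3 * β m * Real.exp (8 / H ^ 2) * (m : ℝ) ^ 4 * (1 / (n : ℝ) ^ 2) := by
  have hn0 : (0 : ℝ) < n := by exact_mod_cast hn
  have hm0 : (0 : ℝ) < m := by exact_mod_cast hm
  have hn1 : (1 : ℝ) ≤ n := by exact_mod_cast hn
  have hm1 : (1 : ℝ) ≤ m := by exact_mod_cast hm
  have hl : 0 ≤ Real.log n := Real.log_nonneg hn1
  rw [tm_norm, abs_mul, abs_div, abs_mul, abs_of_nonneg (hβ m), abs_of_nonneg (Real.sqrt_nonneg _)]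
  have h1 : |a n| ≤ 3 * (n : ℝ) ^ 2 :=
    (ha n).trans (mul_le_mul_of_nonneg_left (pow_le_pow_left₀ (by linarith) (log_le_self hn) 2)
      (by norm_num))
  have h2 : 1 ≤ Real.sqrt ((n : ℝ) * m) := by
    rw [Real.one_le_sqrt]
    nlinarith
  have h3 : |a n| * β m / Real.sqrt ((n : ℝ) * m) ≤ 3 * (n : ℝ) ^ 2 * β m := by
    refine (div_le_self (mul_nonneg (abs_nonneg _) (hβ m)) h2).trans ?_
    exact mul_le_mul_of_nonneg_right h1 (hβ m)
  refine (mul_le_mul h3 (wd_pow hH hn hm) (abs_nonneg _)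
    (mul_nonneg (by positivity) (hβ m))).trans (le_of_eq ?_)
  field_simp

/-- the terms of `DWo` -/
noncomputable def fo (a : ℕ → ℝ) (lam H : ℝ) (S : Finset ℕ) (β : ℕ → ℝ) (n : ℕ) (t : ℝ) : ℂ :=
  if n = 0 then 0 else ∑ m ∈ S, if n = m then 0 else tm a lam H β n m t

/-- the terms of `DW` -/
noncomputable def fa (a : ℕ → ℝ) (lam H : ℝ) (S : Finset ℕ) (β : ℕ → ℝ) (n : ℕ) (t : ℝ) : ℂ :=
  if n = 0 then 0 else ∑ m ∈ S, tm a lam H β n m t

/-- the bound -/
noncomputable def ub (H : ℝ) (S : Finset ℕ) (β : ℕ → ℝ) (n : ℕ) : ℝ :=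
  (∑ m ∈ S, 3 * β m * Real.exp (8 / H ^ 2) * (m : ℝ) ^ 4) * (1 / (n : ℝ) ^ 2)

theorem ub_sum (H : ℝ) (S : Finset ℕ) (β : ℕ → ℝ) : Summable (ub H S β) := by
  unfold ub
  exact (Real.summable_one_div_nat_pow.2 one_lt_two).mul_left _

theorem ub_nonneg (H : ℝ) {S : Finset ℕ} {β : ℕ → ℝ} (hβ : ∀ m, 0 ≤ β m) (n : ℕ) :
    0 ≤ ub H S β n := by
  unfold ub
  refine mul_nonneg (Finset.sum_nonneg fun m _ => ?_) (by positivity)
  exact mul_nonneg (mul_nonneg (mul_nonneg (by norm_num) (hβ m)) (Real.exp_pos _).le)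
    (by positivity)

section

variable {a : ℕ → ℝ} (ha : ∀ n : ℕ, |a n| ≤ 3 * (1 + Real.log n) ^ 2) {lam H : ℝ} (hH : 0 < H)
  {S : Finset ℕ} {β : ℕ → ℝ} (hβ : ∀ m, 0 ≤ β m) (hS : ∀ m ∈ S, 1 ≤ m)

include ha hH hβ hS

theorem fo_le (n : ℕ) (t : ℝ) : ‖fo a lam H S β n t‖ ≤ ub H S β n := by
  unfold fo
  split_ifs with hn
  · rw [norm_zero]
    exact ub_nonneg H hβ n
  · have hn1 : 1 ≤ n := Nat.one_le_iff_ne_zero.2 hn
    unfold ub
    rw [Finset.sum_mul]
    refine (norm_sum_le _ _).trans (Finset.sum_le_sum fun m hm => ?_)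
    split_ifs with h
    · rw [norm_zero]
      exact mul_nonneg (mul_nonneg (mul_nonneg (mul_nonneg (by norm_num) (hβ m))
        (Real.exp_pos _).le) (by positivity)) (by positivity)
    · exact tm_le ha hH hβ hn1 (hS m hm) t

theorem fa_le (n : ℕ) (t : ℝ) : ‖fa a lam H S β n t‖ ≤ ub H S β n := by
  unfold fa
  split_ifs with hn
  · rw [norm_zero]
    exact ub_nonneg H hβ n
  · have hn1 : 1 ≤ n := Nat.one_le_iff_ne_zero.2 hn
    unfold ub
    rw [Finset.sum_mul]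
    refine (norm_sum_le _ _).trans (Finset.sum_le_sum fun m hm => ?_)
    exact tm_le ha hH hβ hn1 (hS m hm) t

theorem fo_sum (t : ℝ) : Summable fun n => fo a lam H S β n t :=
  (ub_sum H S β).of_norm_bounded fun n => fo_le ha hH hβ hS n t

theorem fa_sum (t : ℝ) : Summable fun n => fa a lam H S β n t :=
  (ub_sum H S β).of_norm_bounded fun n => fa_le ha hH hβ hS n t

/-- `DWo` is continuous. -/
theorem DWo_cont : Continuous fun t => DWo a lam H S β t := by
  have h : Continuous fun t => ∑' n : ℕ, fo a lam H S β n t := by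
    refine continuous_tsum (fun n => ?_) (ub_sum H S β) fun n t => fo_le ha hH hβ hS n t
    unfold fo tm
    split_ifs with hn
    · exact continuous_const
    · refine continuous_finsetSum _ fun m _ => ?_
      split_ifs with h
      · exact continuous_const
      · fun_prop
  exact h

/-- The diagonal. -/
theorem DW_split (t : ℝ) : DW a lam H S β t =
    ((∑ m ∈ S, a m * (β m / m) : ℝ) : ℂ) + DWo a lam H S β t := by
  have e1 : DW a lam H S β t = ∑' n : ℕ, fa a lam H S β n t := rfl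
  have e2 : DWo a lam H S β t = ∑' n : ℕ, fo a lam H S β n t := rfl
  have e3 : ∑' n : ℕ, (fa a lam H S β n t - fo a lam H S β n t) =
      ((∑ m ∈ S, a m * (β m / m) : ℝ) : ℂ) := by
    have e4 : ∀ n : ℕ, fa a lam H S β n t - fo a lam H S β n t =
        if n ∈ S then ((a n * (β n / n) : ℝ) : ℂ) else 0 := by
      intro n
      unfold fa fo
      by_cases hn : n = 0
      · rw [if_pos hn, if_pos hn, sub_zero, if_neg]
        intro hn'
        have := hS n hn'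
        omega
      · rw [if_neg hn, if_neg hn, ← Finset.sum_sub_distrib]
        have e5 : ∀ m ∈ S, (tm a lam H β n m t - if n = m then 0 else tm a lam H β n m t) =
            if n = m then ((a n * (β n / n) : ℝ) : ℂ) else 0 := by
          intro m hm
          split_ifs with h
          · subst h
            have hn0 : (n : ℝ) ≠ 0 := Nat.cast_ne_zero.2 hn
            unfold tm
            rw [div_self hn0, Real.log_one, wd_zero, Real.sqrt_mul_self (Nat.cast_nonneg n),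
              Complex.ofReal_zero, mul_zero, zero_mul, Complex.exp_zero, mul_one, mul_one,
              sub_zero, mul_div_assoc]
          · rw [sub_self]
        rw [Finset.sum_congr rfl e5, Finset.sum_ite_eq]
    rw [tsum_congr e4, tsum_eq_sum (s := S) (fun n hn => if_neg hn), Complex.ofReal_sum]
    refine Finset.sum_congr rfl fun n hn => ?_
    rw [if_pos hn]
  rw [e1, e2, ← e3, (fa_sum ha hH hβ hS t).tsum_sub (fo_sum ha hH hβ hS t)]
  ring

end

theorem DW_smul (a : ℕ → ℝ) (lam H c : ℝ) (S : Finset ℕ) (β : ℕ → ℝ) (t : ℝ) :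
    DWo (fun n => c * a n) lam H S β t = (c : ℂ) * DWo a lam H S β t := by
  unfold DWo
  rw [← tsum_mul_left]
  refine tsum_congr fun n => ?_
  split_ifs with hn
  · rw [mul_zero]
  · rw [Finset.mul_sum]
    refine Finset.sum_congr rfl fun m _ => ?_
    split_ifs with h
    · rw [mul_zero]
    · push_cast
      ring

/-- Chebyshev's inequality. -/
theorem cheb {f : ℝ → ℂ} (hf : Continuous f) {T M K : ℝ} (hK : 0 < K)
    (h : ∫⁻ t in Icc T (2 * T), ENNReal.ofReal (‖f t‖ ^ 2) ≤ ENNReal.ofReal M) :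
    volume {t : ℝ | (T ≤ t ∧ t ≤ 2 * T) ∧ K ≤ ‖f t‖} ≤ ENNReal.ofReal (M / K ^ 2) := by
  have hm : Measurable fun t => ENNReal.ofReal (‖f t‖ ^ 2) :=
    (hf.norm.pow 2).measurable.ennreal_ofReal
  have h1 := meas_ge_le_lintegral_div (μ := volume.restrict (Icc T (2 * T))) hm.aemeasurable
    (ε := ENNReal.ofReal (K ^ 2)) (by simpa using hK.ne') ENNReal.ofReal_ne_top
  have h2 : volume {t : ℝ | (T ≤ t ∧ t ≤ 2 * T) ∧ K ≤ ‖f t‖} ≤
      (volume.restrict (Icc T (2 * T))) {t | ENNReal.ofReal (K ^ 2) ≤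
        ENNReal.ofReal (‖f t‖ ^ 2)} := by
    rw [Measure.restrict_apply (measurableSet_le measurable_const hm)]
    refine measure_mono fun t ht => ⟨?_, ht.1⟩
    exact ENNReal.ofReal_le_ofReal (pow_le_pow_left₀ hK.le ht.2 2)
  refine h2.trans (h1.trans ?_)
  rw [ENNReal.ofReal_div_of_pos (pow_pos hK 2)]
  exact ENNReal.div_le_div_right h _

theorem diag_le {S : Finset ℕ} {β : ℕ → ℝ} {N ν : ℝ} (h : Mol S β N ν) {a : ℕ → ℝ} {K : ℝ}
    (ha : ∀ m ∈ S, |a m| ≤ K) : ‖((∑ m ∈ S, a m * (β m / m) : ℝ) : ℂ)‖ ≤ K := by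
  rw [Complex.norm_real, Real.norm_eq_abs]
  calc |∑ m ∈ S, a m * (β m / m)| ≤ ∑ m ∈ S, |a m * (β m / m)| := Finset.abs_sum_le_sum_abs _ _
    _ ≤ ∑ m ∈ S, K * (β m / m) := by
        refine Finset.sum_le_sum fun m hm => ?_
        have h0 : 0 ≤ β m / (m : ℝ) := div_nonneg (h.nonneg m) (Nat.cast_nonneg m)
        rw [abs_mul, abs_of_nonneg h0]
        exact mul_le_mul_of_nonneg_right (ha m hm) h0
    _ = K := by rw [← Finset.mul_sum, h.sum_one, mul_one]

theorem w1_le {C : ℝ} (hom : ∀ y : ℝ, 1 ≤ y →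
    ‖om ((3 / 2 : ℝ) - y * I) - (Real.log (y / (2 * Real.pi)) : ℂ)‖ ≤ C / y) {A T t : ℝ}
    (hT : 10 < T) (hC : C ≤ T) (hA : 1 + |A| ≤ Real.log T) (h1 : T ≤ t) (h2 : t ≤ 2 * T) :
    ‖w1 A t‖ ≤ 3 * Real.log T := by
  have hpi := Real.pi_gt_three
  have hpi4 := Real.pi_le_four
  have h3 := hom t (by linarith)
  have h4 : C / t ≤ 1 := by
    rw [div_le_one (by linarith)]
    linarith
  have h5 : ‖((Real.log (t / (2 * Real.pi)) : ℝ) : ℂ)‖ ≤ Real.log T := by
    rw [Complex.norm_real, Real.norm_eq_abs, abs_of_nonneg]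
    · apply Real.log_le_log (div_pos (by linarith) (by positivity))
      rw [div_le_iff₀ (by positivity)]
      nlinarith
    · apply Real.log_nonneg
      rw [le_div_iff₀ (by positivity)]
      linarith
  have e : w1 A t = (om ((3 / 2 : ℝ) - t * I) - (Real.log (t / (2 * Real.pi)) : ℂ)) +
      ((Real.log (t / (2 * Real.pi)) : ℝ) : ℂ) - A := by
    unfold w1 sl
    ring
  rw [e]
  refine (norm_sub_le _ _).trans ?_
  have h6 : ‖(A : ℂ)‖ = |A| := by rw [Complex.norm_real, Real.norm_eq_abs]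
  have h7 := norm_add_le (om ((3 / 2 : ℝ) - t * I) - (Real.log (t / (2 * Real.pi)) : ℂ))
    ((Real.log (t / (2 * Real.pi)) : ℝ) : ℂ)
  have h8 := abs_nonneg A
  rw [h6]
  linarith

/-- `w0` is at least `L²/3`. -/
theorem w0_ge (hO : OMDStatement) (A B : ℝ) : ∀ᶠ T : ℝ in atTop, ∀ t : ℝ, T ≤ t → t ≤ 2 * T →
    Real.log T ^ 2 / 3 ≤ ‖w0 A B t‖ := by
  obtain ⟨C, hC, hom⟩ := hO
  have hA := abs_nonneg A
  have hB := abs_nonneg B
  set K : ℝ := 2 + 2 * |A| + |B| with hK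
  filter_upwards [eventually_ge_atTop 20000, eventually_ge_atTop C,
    Real.tendsto_log_atTop.eventually_ge_atTop (1000 * (K + 1))] with T hTc hTd hLL t ht1 ht2
  have hT0 : 0 < T := by linarith
  set L := Real.log T with hL
  have hL3 : 3000 ≤ L := by nlinarith
  have hL0 : 0 < L := by linarith
  have hpi := Real.pi_gt_three
  have hpi4 := Real.pi_le_four
  set lam : ℝ := Real.log (t / (2 * Real.pi)) with hlam
  have hlam1 : L - 2.1 ≤ lam := by
    have h5 : T / 8 ≤ t / (2 * Real.pi) := by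
      rw [div_le_div_iff₀ (by norm_num) (by positivity)]
      nlinarith
    have h6 := Real.log_le_log (by positivity) h5
    rw [Real.log_div hT0.ne' (by norm_num)] at h6
    have h7 : Real.log 8 ≤ 2.1 := by
      rw [show (8 : ℝ) = 2 ^ 3 by norm_num, Real.log_pow]
      have := Real.log_two_lt_d9
      push_cast
      linarith
    linarith
  have hlam2 : lam ≤ L := by
    apply Real.log_le_log (div_pos (by linarith) (by positivity))
    rw [div_le_iff₀ (by positivity)]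
    nlinarith
  have ht1' : 1 ≤ t := by linarith
  have hCt : C / t ≤ 1 := by
    rw [div_le_one (by linarith)]
    linarith
  obtain ⟨o1, o2, -⟩ := hom t ht1'
  have o1' : ‖om (sl t) - (lam : ℂ)‖ ≤ 1 := by
    have : ‖om (sl t) - (lam : ℂ)‖ ≤ C / t := o1
    linarith
  have o2' : ‖deriv om (sl t)‖ ≤ 1 := by
    have : ‖deriv om (sl t)‖ ≤ C / t := o2
    linarith
  have nlam : ‖(lam : ℂ)‖ ≤ L := by
    rw [Complex.norm_real, Real.norm_of_nonneg (by linarith)]
    exact hlam2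
  have nA : ‖(A : ℂ)‖ = |A| := by rw [Complex.norm_real, Real.norm_eq_abs]
  have nB : ‖(B : ℂ)‖ = |B| := by rw [Complex.norm_real, Real.norm_eq_abs]
  have nom : ‖om (sl t)‖ ≤ L + 1 := by
    have h : om (sl t) = (om (sl t) - (lam : ℂ)) + (lam : ℂ) := by ring
    rw [h]
    refine (norm_add_le _ _).trans ?_
    linarith
  have hw : ‖w0 A B t - ((lam ^ 2 / 2 : ℝ) : ℂ)‖ ≤ K * L := by
    have h : w0 A B t - ((lam ^ 2 / 2 : ℝ) : ℂ) =
        (om (sl t) - (lam : ℂ)) * (om (sl t) + (lam : ℂ)) / 2 - deriv om (sl t) / 2 -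
          A * om (sl t) - B := by
      unfold w0
      push_cast
      ring
    have h1 : ‖(om (sl t) - (lam : ℂ)) * (om (sl t) + (lam : ℂ)) / 2‖ ≤ 1 * (2 * L + 1) / 2 := by
      rw [norm_div, norm_mul]
      have h2 : ‖om (sl t) + (lam : ℂ)‖ ≤ 2 * L + 1 := by
        refine (norm_add_le _ _).trans ?_
        linarith
      have h3 := mul_le_mul o1' h2 (norm_nonneg _) (by norm_num)
      simp only [Complex.norm_ofNat]
      linarith
    have h2 : ‖deriv om (sl t) / 2‖ ≤ 1 / 2 := by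
      rw [norm_div]
      simp only [Complex.norm_ofNat]
      linarith
    have h3 : ‖(A : ℂ) * om (sl t)‖ ≤ |A| * (L + 1) := by
      rw [norm_mul, nA]
      exact mul_le_mul_of_nonneg_left nom hA
    rw [h]
    have h4 := norm_sub_le ((om (sl t) - (lam : ℂ)) * (om (sl t) + (lam : ℂ)) / 2 -
      deriv om (sl t) / 2 - A * om (sl t)) (B : ℂ)
    have h5 := norm_sub_le ((om (sl t) - (lam : ℂ)) * (om (sl t) + (lam : ℂ)) / 2 -
      deriv om (sl t) / 2) (A * om (sl t))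
    have h6 := norm_sub_le ((om (sl t) - (lam : ℂ)) * (om (sl t) + (lam : ℂ)) / 2)
      (deriv om (sl t) / 2)
    rw [nB] at h4
    have h7 : |A| ≤ |A| * L := le_mul_of_one_le_right hA (by linarith)
    have h8 : |B| ≤ |B| * L := le_mul_of_one_le_right hB (by linarith)
    rw [hK]
    nlinarith
  have h1 : lam ^ 2 / 2 - K * L ≤ ‖w0 A B t‖ := by
    have h2 := norm_sub_norm_le ((lam ^ 2 / 2 : ℝ) : ℂ) (((lam ^ 2 / 2 : ℝ) : ℂ) - w0 A B t)
    rw [sub_sub_cancel, norm_sub_rev ((lam ^ 2 / 2 : ℝ) : ℂ) (w0 A B t), Complex.norm_real,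
      Real.norm_of_nonneg (by positivity)] at h2
    linarith
  have h11 : K * L ≤ L ^ 2 / 1000 - L := by
    have : K + 1 ≤ L / 1000 := by linarith
    nlinarith
  have h12 := pow_le_pow_left₀ (by linarith : (0 : ℝ) ≤ L - 2.1) hlam1 2
  nlinarith

/-- The pointwise inequality. -/
theorem arith {L l lam : ℝ} {D0 D1 D2 W0 W1 k A : ℂ} (hL : 100000 ≤ L) (hl : 1 ≤ l)
    (hlL : l ≤ L) (hlam : 10 ≤ lam)
    (h0 : L ^ 2 / 3 ≤ ‖W0‖) (hk : 1 / 120 ≤ ‖k‖) (h1 : ‖W1‖ ≤ 3 * L)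
    (d0 : ‖D0 - 1‖ ≤ 1 / 2) (d1 : ‖D1‖ ≤ L / 100 + L / 50 * (1 / 10))
    (d2 : ‖D2‖ ≤ 3 * (1 + L / 100) ^ 2 + 3 * (1 + L / 50) ^ 2 * (1 / 10))
    (hA : ‖A - ((lam / (10 * Real.sqrt l) / Real.sqrt (2 * Real.pi) : ℝ) : ℂ) *
      (k * W0 * D0 - k * W1 * D1 + k * D2)‖ ≤ 1) :
    1 / 10000 * (lam / (10 * Real.sqrt l)) * L ^ 2 < ‖A‖ := by
  set H : ℝ := lam / (10 * Real.sqrt l) with hH
  have hl0 : 0 ≤ l := by linarith
  have hs1 : 1 ≤ Real.sqrt l := by
    rw [Real.one_le_sqrt]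
    exact hl
  have hsl : Real.sqrt l ≤ L := by
    rw [Real.sqrt_le_left (by linarith)]
    nlinarith
  have hH1 : 1 / L ≤ H := by
    rw [hH, div_le_div_iff₀ (by linarith) (by linarith)]
    nlinarith
  have hHL : 100000 ≤ H * L ^ 2 := by
    have h3 : 1 / L * L ^ 2 = L := by
      field_simp
    have h4 := mul_le_mul_of_nonneg_right hH1 (sq_nonneg L)
    rw [h3] at h4
    linarith
  have hH0 : 0 < H := lt_of_lt_of_le (by positivity) hH1
  have hr : Real.sqrt (2 * Real.pi) ≤ 3 := by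
    rw [Real.sqrt_le_left (by norm_num)]
    have := Real.pi_le_four
    nlinarith
  have hr0 : 0 < Real.sqrt (2 * Real.pi) := Real.sqrt_pos.2 (by positivity)
  have hHr : H / 3 ≤ H / Real.sqrt (2 * Real.pi) := by
    exact div_le_div_of_nonneg_left hH0.le hr0 hr
  -- the bracket
  set E : ℂ := k * W0 * D0 - k * W1 * D1 + k * D2 with hE
  have e1 : E = k * (W0 * D0 - (W1 * D1 - D2)) := by rw [hE]; ring
  have n1 : 1 / 2 ≤ ‖D0‖ := by
    have h2 := norm_sub_norm_le (1 : ℂ) (1 - D0)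
    rw [sub_sub_cancel, norm_one, norm_sub_rev 1 D0] at h2
    linarith
  have n2 : ‖W1 * D1‖ ≤ 3 * L * (L / 100 + L / 50 * (1 / 10)) := by
    rw [norm_mul]
    exact mul_le_mul h1 d1 (norm_nonneg _) (by linarith)
  have n3 : ‖W1 * D1 - D2‖ ≤ 3 * L * (L / 100 + L / 50 * (1 / 10)) +
      (3 * (1 + L / 100) ^ 2 + 3 * (1 + L / 50) ^ 2 * (1 / 10)) :=
    (norm_sub_le _ _).trans (add_le_add n2 d2)
  have q2 : 3 * L * (L / 100 + L / 50 * (1 / 10)) +
      (3 * (1 + L / 100) ^ 2 + 3 * (1 + L / 50) ^ 2 * (1 / 10)) ≤ L ^ 2 / 20 := by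
    nlinarith
  have n4 : L ^ 2 / 10 ≤ ‖W0 * D0 - (W1 * D1 - D2)‖ := by
    have h2 : ‖W0 * D0‖ - ‖W1 * D1 - D2‖ ≤ ‖W0 * D0 - (W1 * D1 - D2)‖ :=
      norm_sub_norm_le _ _
    have h3 : L ^ 2 / 6 ≤ ‖W0 * D0‖ := by
      rw [norm_mul]
      have := mul_le_mul h0 n1 (by norm_num) (norm_nonneg _)
      linarith
    nlinarith [sq_nonneg L]
  have n4' : L ^ 2 / 1200 ≤ ‖E‖ := by
    rw [e1, norm_mul]
    have := mul_le_mul hk n4 (by positivity) (norm_nonneg _)
    linarith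
  have n5 : ‖((H / Real.sqrt (2 * Real.pi) : ℝ) : ℂ) * E‖ - 1 ≤ ‖A‖ := by
    have h2 := norm_sub_norm_le (((H / Real.sqrt (2 * Real.pi) : ℝ) : ℂ) * E) A
    rw [norm_sub_rev] at h2
    linarith
  have n6 : H / 3 * (L ^ 2 / 1200) ≤ ‖((H / Real.sqrt (2 * Real.pi) : ℝ) : ℂ) * E‖ := by
    rw [norm_mul, Complex.norm_real, Real.norm_of_nonneg (by positivity)]
    exact mul_le_mul hHr n4' (by positivity) (by positivity)
  have n7 : H / 3 * (L ^ 2 / 1200) = H * L ^ 2 / 3600 := by ring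
  have n8 : 1 / 10000 * H * L ^ 2 = H * L ^ 2 / 10000 := by ring
  rw [n8]
  rw [n7] at n6
  linarith

/-- **MAINT.** -/
theorem maint (h1 : MAINT1Statement) (h2 : MAINT2Statement) (hO : OMDStatement)
    (hb : BASXStatement) : MAINTStatement := by
  intro A B
  refine ⟨1 / 10000, by norm_num, fun ε hε => ?_⟩
  obtain ⟨C, hC, h2⟩ := h2
  refine ⟨max 10 (500 * C / ε), le_trans (by norm_num) (le_max_left _ _), fun lam hlam => ?_⟩
  have hlam10 : 10 ≤ lam := le_trans (le_max_left _ _) hlam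
  have hlamC : 500 * C / ε ≤ lam := le_trans (le_max_right _ _) hlam
  have hlam0 : 0 < lam := by linarith
  have hCl : C / lam ≤ ε / 500 := by
    rw [div_le_iff₀ hε] at hlamC
    rw [div_le_iff₀ hlam0]
    linarith
  obtain ⟨Ta, hTa, h1⟩ := h1 A B lam hlam10
  obtain ⟨Tb, hTb, h2⟩ := h2 lam (ε / 500) (by linarith) (by positivity)
  have hre := w0_ge hO A B
  obtain ⟨Co, hCo, hom⟩ := hO
  have hev : ∀ᶠ T : ℝ in atTop, Ta ≤ T ∧ Tb ≤ T ∧ (∀ t : ℝ, T ≤ t → t ≤ 2 * T →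
      Real.log T ^ 2 / 3 ≤ ‖w0 A B t‖) ∧ Co ≤ T ∧ 1 + |A| ≤ Real.log T ∧
      (100000 ≤ Real.log T ∧ 1 ≤ Real.log (Real.log T)) := by
    filter_upwards [eventually_ge_atTop Ta, eventually_ge_atTop Tb, hre,
      eventually_ge_atTop Co, Real.tendsto_log_atTop.eventually_ge_atTop (1 + |A|),
      Real.tendsto_log_atTop.eventually_ge_atTop 100000,
      (Real.tendsto_log_atTop.comp Real.tendsto_log_atTop).eventually_ge_atTop 1]
      with T a b c d e f g
    exact ⟨a, b, c, d, e, f, g⟩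
  obtain ⟨T0, hT0⟩ := eventually_atTop.1 hev
  refine ⟨max T0 11, lt_of_lt_of_le (by norm_num) (le_max_right _ _), ?_⟩
  intro T δ S β hT hδ1 hδ2 hM
  obtain ⟨ta, tb, tc, tco, tA, hL, hl⟩ := hT0 T (le_trans (le_max_left _ _) hT)
  have hT11 : 11 ≤ T := le_trans (le_max_right _ _) hT
  have hT0' : 0 < T := by linarith
  set L := Real.log T with hLd
  set l := Real.log L with hld
  have hl0 : 0 < l := by linarith
  have hlL : l ≤ L := by
    have := Real.log_le_sub_one_of_pos (show (0 : ℝ) < L by linarith)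
    linarith
  have hH : 0 < HH T lam := by
    unfold HH
    have : 0 < Real.sqrt (Real.log (Real.log T)) := Real.sqrt_pos.2 hl0
    positivity
  have hδ0 : 0 ≤ δ := le_trans (by positivity) hδ1
  have hLp : 0 < L := by linarith
  -- the three coefficient functions
  set c₃ : ℝ := 3 * (1 + L / 50) ^ 2 with hc₃
  have hc₃0 : 0 < c₃ := by positivity
  have hc₃3 : 3 ≤ c₃ := by
    have : (1 : ℝ) ≤ (1 + L / 50) ^ 2 := one_le_pow₀ (by linarith)
    linarith
  set a1 : ℕ → ℝ := fun _ => 1 with ha1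
  set a2 : ℕ → ℝ := fun n => 1 / (L / 50) * Real.log n with ha2
  set a3 : ℕ → ℝ := fun n => 1 / c₃ * bn 0 0 n with ha3
  have hlog : ∀ n : ℕ, 0 ≤ Real.log n := fun n => Real.log_natCast_nonneg n
  have hbn : ∀ n : ℕ, |bn 0 0 n| ≤ 3 * (1 + Real.log n) ^ 2 := by
    intro n
    have := A35.bn_bound hb 0 0 n
    simpa using this
  have c1 : ∀ n : ℕ, |a1 n| ≤ (1 + Real.log n) ^ 2 := by
    intro n
    simp only [ha1, abs_one]
    exact one_le_pow₀ (by linarith [hlog n])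
  have c2 : ∀ n : ℕ, |a2 n| ≤ (1 + Real.log n) ^ 2 := by
    intro n
    have h3 := hlog n
    simp only [ha2]
    rw [abs_mul, abs_of_nonneg h3, abs_of_nonneg (by positivity)]
    have h4 : 1 / (L / 50) ≤ 1 := by
      rw [div_le_one (by positivity)]
      linarith
    nlinarith
  have c3 : ∀ n : ℕ, |a3 n| ≤ (1 + Real.log n) ^ 2 := by
    intro n
    simp only [ha3]
    rw [abs_mul, abs_of_nonneg (a := 1 / c₃) (by positivity)]
    have h4 : 1 / c₃ ≤ 1 / 3 := one_div_le_one_div_of_le (by norm_num) hc₃3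
    have h5 := hbn n
    calc 1 / c₃ * |bn 0 0 n| ≤ 1 / 3 * (3 * (1 + Real.log n) ^ 2) :=
          mul_le_mul h4 h5 (abs_nonneg _) (by norm_num)
      _ ≤ (1 + Real.log n) ^ 2 := by linarith
  have b1 : ∀ n : ℕ, Real.log n ≤ L / 50 → |a1 n| ≤ 1 := by
    intro n _
    simp [ha1]
  have b2 : ∀ n : ℕ, Real.log n ≤ L / 50 → |a2 n| ≤ 1 := by
    intro n hn
    have h3 := hlog n
    simp only [ha2]
    rw [abs_mul, abs_of_nonneg h3, abs_of_nonneg (by positivity), one_div, inv_mul_le_iff₀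
      (by positivity)]
    linarith
  have b3 : ∀ n : ℕ, Real.log n ≤ L / 50 → |a3 n| ≤ 1 := by
    intro n hn
    have h3 := hlog n
    simp only [ha3]
    rw [abs_mul, abs_of_nonneg (a := 1 / c₃) (by positivity), one_div,
      inv_mul_le_iff₀ (by positivity)]
    refine (hbn n).trans ?_
    have h4 : (1 + Real.log n) ^ 2 ≤ (1 + L / 50) ^ 2 :=
      pow_le_pow_left₀ (by linarith) (by linarith) 2
    linarith
  have key : ∀ a : ℕ → ℝ, (∀ n : ℕ, Real.log n ≤ L / 50 → |a n| ≤ 1) →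
      (∀ n : ℕ, |a n| ≤ (1 + Real.log n) ^ 2) → ∀ K : ℝ, 0 < K →
      volume {t : ℝ | (T ≤ t ∧ t ≤ 2 * T) ∧ K ≤ ‖DWo a lam (HH T lam) S β t‖} ≤
        ENNReal.ofReal (ε / 250 * T / K ^ 2) := by
    intro a hb' hc' K hK
    have h3 := h2 T a S β tb hb' hc' hM
    have h4 : ∀ n : ℕ, |a n| ≤ 3 * (1 + Real.log n) ^ 2 := fun n => (hc' n).trans (by
      nlinarith [sq_nonneg (1 + Real.log (n : ℝ))])
    refine (cheb (DWo_cont h4 hH hM.nonneg hM.one_le) hK h3).trans (ENNReal.ofReal_le_ofReal ?_)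
    apply div_le_div_of_nonneg_right _ (by positivity)
    apply mul_le_mul_of_nonneg_right _ hT0'.le
    linarith
  have v1 := key a1 b1 c1 (1 / 2) (by norm_num)
  have v2 := key a2 b2 c2 (1 / 10) (by norm_num)
  have v3 := key a3 b3 c3 (1 / 10) (by norm_num)
  set E1 := {t : ℝ | (T ≤ t ∧ t ≤ 2 * T) ∧ 1 / 2 ≤ ‖DWo a1 lam (HH T lam) S β t‖} with hE1
  set E2 := {t : ℝ | (T ≤ t ∧ t ≤ 2 * T) ∧ 1 / 10 ≤ ‖DWo a2 lam (HH T lam) S β t‖} with hE2
  set E3 := {t : ℝ | (T ≤ t ∧ t ≤ 2 * T) ∧ 1 / 10 ≤ ‖DWo a3 lam (HH T lam) S β t‖} with hE3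
  have hsub : {t : ℝ | T ≤ t ∧ t ≤ 2 * T ∧
      ‖(Av (lam / 16))^[8] (fun x =>
        ILG A B T δ (fun s => pB S β s * GH (HH T lam) x s)) t‖ ≤
          1 / 10000 * HH T lam * L ^ 2} ⊆ E1 ∪ E2 ∪ E3 := by
    rintro t ⟨ht1, ht2, ht3⟩
    by_contra hcon
    rw [mem_union, mem_union, not_or, not_or] at hcon
    obtain ⟨⟨n1, n2⟩, n3⟩ := hcon
    have m1 : ‖DWo a1 lam (HH T lam) S β t‖ < 1 / 2 := by
      by_contra h
      exact n1 ⟨⟨ht1, ht2⟩, not_lt.1 h⟩
    have m2 : ‖DWo a2 lam (HH T lam) S β t‖ < 1 / 10 := by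
      by_contra h
      exact n2 ⟨⟨ht1, ht2⟩, not_lt.1 h⟩
    have m3 : ‖DWo a3 lam (HH T lam) S β t‖ < 1 / 10 := by
      by_contra h
      exact n3 ⟨⟨ht1, ht2⟩, not_lt.1 h⟩
    have hS := hM.one_le
    have hlm : ∀ m ∈ S, Real.log m ≤ L / 100 := by
      intro m hm
      have h3 : (0 : ℝ) < m := by exact_mod_cast hS m hm
      have h4 := Real.log_le_log h3 (hM.le m hm)
      rw [Real.log_rpow hT0'] at h4
      linarith
    -- the three sums
    have s1 := DW_split (a := fun _ => (1 : ℝ)) (fun n => by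
      rw [abs_one]
      have : (1 : ℝ) ≤ (1 + Real.log n) ^ 2 := one_le_pow₀ (by linarith [hlog n])
      linarith) hH hM.nonneg hS (lam := lam) t
    have s2 := DW_split (a := fun n => Real.log n) (fun n => by
      have h3 := hlog n
      rw [abs_of_nonneg h3]
      nlinarith) hH hM.nonneg hS (lam := lam) t
    have s3 := DW_split (a := bn 0 0) hbn hH hM.nonneg hS (lam := lam) t
    have e2 : DWo a2 lam (HH T lam) S β t =
        ((1 / (L / 50) : ℝ) : ℂ) * DWo (fun n => Real.log n) lam (HH T lam) S β t :=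
      DW_smul _ _ _ _ _ _ _
    have e3 : DWo a3 lam (HH T lam) S β t =
        ((1 / c₃ : ℝ) : ℂ) * DWo (bn 0 0) lam (HH T lam) S β t :=
      DW_smul _ _ _ _ _ _ _
    have o2 : ‖DWo (fun n => Real.log n) lam (HH T lam) S β t‖ ≤ L / 50 * (1 / 10) := by
      rw [e2, norm_mul, Complex.norm_real, Real.norm_of_nonneg (by positivity), one_div (L / 50),
        inv_mul_lt_iff₀ (by positivity)] at m2
      exact m2.le
    have o3 : ‖DWo (bn 0 0) lam (HH T lam) S β t‖ ≤ c₃ * (1 / 10) := by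
      rw [e3, norm_mul, Complex.norm_real, Real.norm_of_nonneg (by positivity), one_div c₃,
        inv_mul_lt_iff₀ (by positivity)] at m3
      exact m3.le
    have g1 : DW (fun _ => (1 : ℝ)) lam (HH T lam) S β t - 1 = DWo a1 lam (HH T lam) S β t := by
      rw [s1]
      have : (∑ m ∈ S, (1 : ℝ) * (β m / m)) = 1 := by
        simp only [one_mul]
        exact hM.sum_one
      rw [this, Complex.ofReal_one]
      ring
    have g2 : ‖DW (fun n => Real.log n) lam (HH T lam) S β t‖ ≤ L / 100 + L / 50 * (1 / 10) := by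
      rw [s2]
      refine (norm_add_le _ _).trans (add_le_add (diag_le hM fun m hm => ?_) o2)
      rw [abs_of_nonneg (hlog m)]
      exact hlm m hm
    have g3 : ‖DW (bn 0 0) lam (HH T lam) S β t‖ ≤
        3 * (1 + L / 100) ^ 2 + 3 * (1 + L / 50) ^ 2 * (1 / 10) := by
      rw [s3]
      refine (norm_add_le _ _).trans (add_le_add (diag_le hM fun m hm => ?_) o3)
      refine (hbn m).trans ?_
      have := pow_le_pow_left₀ (by linarith [hlog m]) (add_le_add_right (hlm m hm) 1) 2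
      linarith
    have hkge : 1 / 120 ≤ ‖kf δ t‖ := by
      apply kf_norm_ge (by linarith)
      calc δ * t ≤ 2 / T * (2 * T) := mul_le_mul hδ2 ht2 (by linarith) (by positivity)
        _ = 4 := by field_simp; norm_num
    have hfin := arith (L := L) (l := l) (lam := lam)
      (D0 := DW (fun _ => (1 : ℝ)) lam (HH T lam) S β t)
      (D1 := DW (fun n => Real.log n) lam (HH T lam) S β t)
      (D2 := DW (bn 0 0) lam (HH T lam) S β t) (W0 := w0 A B t) (W1 := w1 A t) (k := kf δ t)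
      hL hl hlL hlam10 (tc t ht1 ht2) hkge
      (w1_le (fun y hy => (hom y hy).1) (by linarith) tco tA ht1 ht2)
      (by rw [g1]; exact m1.le) g2 g3 (h1 T t δ S β ta ht1 ht2 hδ1 hδ2 hM)
    exact absurd ht3 (not_le.2 hfin)
  refine (measure_mono hsub).trans ?_
  refine (measure_union_le _ _).trans ?_
  refine (add_le_add (measure_union_le _ _) le_rfl).trans ?_
  refine (add_le_add (add_le_add v1 v2) v3).trans ?_
  rw [← ENNReal.ofReal_add (by positivity) (by positivity),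
    ← ENNReal.ofReal_add (by positivity) (by positivity)]
  apply ENNReal.ofReal_le_ofReal
  have : 0 ≤ ε * T := by positivity
  have h4 : ε / 250 * T / (1 / 2) ^ 2 + ε / 250 * T / (1 / 10) ^ 2 + ε / 250 * T / (1 / 10) ^ 2 =
      204 / 250 * (ε * T) := by ring
  rw [h4]
  linarith

end Pool.Agent.Lib.MP_6bc78b_nt.GP.H18T
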